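import Pool.Agent.H21.PM.Run

set_option autoImplicit false

/-!
The rook function of the board with doubled special rows (rows `2 s`, `2 s + 1` for `s < r`) and
nested rows is the collapsed recursion.
-/

namespace Pool.Agent.H21.PM

open Finset Pool.Agent.H48.PM

/-- A column: bits of the special rows, and the available nested rows. -/
def colf (r D : ℕ) (bs : List Bool) : ℕ → ℚ := fun i =>
  if i < 2 * r then (if bs.getD (i / 2) false then 1 else 0)
  else if i < 2 * r + D then 1 else 0

/-- The board. -/
def brd (r : ℕ) : ℕ → List (ℕ × List Bool) → List (ℕ → ℚ)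
  | _, [] => []
  | D, (d, bs) :: cols => colf r (D + d) bs :: brd r (D + d) cols

/-- Total number of nested rows which become available. -/
def tot : List (ℕ × List Bool) → ℕ
  | [] => 0
  | (d, _) :: cols => d + tot cols

/-- Numbers of unused special rows. -/
def cls (r : ℕ) (U : Finset ℕ) : List ℕ :=
  (List.range r).map (fun s => (U.filter (fun i => i / 2 = s)).card)

/-- Available nested rows. -/
def avl (r D : ℕ) (U : Finset ℕ) : Finset ℕ := U.filter (fun i => 2 * r ≤ i ∧ i < 2 * r + D)

theorem pickS_eq (bs : List Bool) : ∀ (a : List ℕ) (f : List ℕ → ℚ), bs.length = a.length →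
    pickS bs a f = ∑ s ∈ range a.length,
      (if bs.getD s false then (a.getD s 0 : ℚ) * f (a.set s (a.getD s 0 - 1)) else 0) := by
  induction bs with
  | nil =>
    intro a f h
    have : a = [] := List.length_eq_zero_iff.mp (by simpa using h.symm)
    subst this
    simp [pickS]
  | cons b bs ih =>
    intro a f h
    match a, h with
    | i :: is, h =>
      have h' : bs.length = is.length := by simpa using h
      rw [List.length_cons, Finset.sum_range_succ']
      simp only [pickS]
      rw [ih is _ h', add_comm]
      congr 1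

theorem cls_length (r : ℕ) (U : Finset ℕ) : (cls r U).length = r := by simp [cls]

theorem cls_getD (r : ℕ) (U : Finset ℕ) (s : ℕ) (hs : s < r) :
    (cls r U).getD s 0 = (U.filter (fun i => i / 2 = s)).card := by
  simp [cls, List.getD, hs]

theorem cls_erase (r : ℕ) (U : Finset ℕ) (i : ℕ) (hi : i ∈ U) :
    cls r (U.erase i) = (cls r U).set (i / 2) ((cls r U).getD (i / 2) 0 - 1) := by
  apply List.ext_getElem
  · simp [cls]
  · intro s h1 h2
    have hs : s < r := by simpa [cls] using h1
    rw [List.getElem_set]
    simp only [cls, List.getElem_map, List.getElem_range]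
    split_ifs with h
    · subst h
      have h3 : (U.erase i).filter (fun j => j / 2 = i / 2)
          = (U.filter (fun j => j / 2 = i / 2)).erase i := Finset.filter_erase _ _ _
      rw [h3, Finset.card_erase_of_mem (by simp [hi])]
      congr 1
      have := cls_getD r U (i / 2) hs
      simp only [cls] at this
      exact this.symm
    · congr 1
      ext j
      simp only [Finset.mem_filter, Finset.mem_erase]
      constructor
      · rintro ⟨⟨_, h4⟩, h5⟩
        exact ⟨h4, h5⟩
      · rintro ⟨h4, h5⟩
        refine ⟨⟨?_, h4⟩, h5⟩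
        rintro rfl
        exact h h5

theorem cls_erase_of_ge (r : ℕ) (U : Finset ℕ) (i : ℕ) (hi : 2 * r ≤ i) :
    cls r (U.erase i) = cls r U := by
  unfold cls
  apply List.map_congr_left
  intro s hs
  have hs' : s < r := List.mem_range.mp hs
  congr 1
  ext j
  simp only [Finset.mem_filter, Finset.mem_erase]
  constructor
  · rintro ⟨⟨_, h4⟩, h5⟩
    exact ⟨h4, h5⟩
  · rintro ⟨h4, h5⟩
    refine ⟨⟨?_, h4⟩, h5⟩
    rintro rfl
    omega

theorem avl_card_add (r D d : ℕ) (U : Finset ℕ)
    (h : ∀ i, 2 * r + D ≤ i → i < 2 * r + D + d → i ∈ U) :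
    (avl r (D + d) U).card = (avl r D U).card + d := by
  have h1 : avl r (D + d) U = avl r D U ∪ Finset.Ico (2 * r + D) (2 * r + D + d) := by
    ext i
    simp only [avl, Finset.mem_filter, Finset.mem_union, Finset.mem_Ico]
    constructor
    · rintro ⟨h2, h3, h4⟩
      by_cases h5 : i < 2 * r + D
      · exact Or.inl ⟨h2, h3, h5⟩
      · exact Or.inr ⟨by omega, by omega⟩
    · rintro (⟨h2, h3, h4⟩ | ⟨h2, h3⟩)
      · exact ⟨h2, h3, by omega⟩
      · exact ⟨h i h2 h3, by omega, by omega⟩
  rw [h1, Finset.card_union_of_disjoint]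
  · simp
  · rw [Finset.disjoint_left]
    intro i hi hj
    simp only [avl, Finset.mem_filter] at hi
    rw [Finset.mem_Ico] at hj
    omega

theorem avl_erase_of_lt (r D : ℕ) (U : Finset ℕ) (i : ℕ) (hi : i < 2 * r) :
    avl r D (U.erase i) = avl r D U := by
  ext j
  simp only [avl, Finset.mem_filter, Finset.mem_erase]
  constructor
  · rintro ⟨⟨_, h4⟩, h5⟩
    exact ⟨h4, h5⟩
  · rintro ⟨h4, h5⟩
    exact ⟨⟨by omega, h4⟩, h5⟩

theorem avl_erase_card (r D : ℕ) (U : Finset ℕ) (i : ℕ) (hi : i ∈ avl r D U) :
    ((avl r D (U.erase i)).card : ℚ) = (avl r D U).card - 1 := by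
  have h : avl r D (U.erase i) = (avl r D U).erase i := Finset.filter_erase _ _ _
  rw [h]
  exact card_erase_q hi

theorem sum_class (r : ℕ) (U : Finset ℕ) (bs : List Bool) (f : List ℕ → ℚ)
    (hb : bs.length = r) :
    ∑ i ∈ U.filter (fun i => i < 2 * r), (if bs.getD (i / 2) false then (1 : ℚ) else 0)
        * f ((cls r U).set (i / 2) ((cls r U).getD (i / 2) 0 - 1))
      = pickS bs (cls r U) f := by
  rw [pickS_eq bs _ f (by rw [hb, cls_length]), cls_length]
  rw [← Finset.sum_fiberwise_of_maps_to (s := U.filter (fun i => i < 2 * r)) (t := range r)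
    (g := fun i => i / 2)]
  · apply Finset.sum_congr rfl
    intro s hs
    have hs' : s < r := Finset.mem_range.mp hs
    have h1 : ∀ i ∈ (U.filter (fun i => i < 2 * r)).filter (fun i => i / 2 = s),
        (if bs.getD (i / 2) false then (1 : ℚ) else 0)
        * f ((cls r U).set (i / 2) ((cls r U).getD (i / 2) 0 - 1))
        = (if bs.getD s false then (1 : ℚ) else 0)
        * f ((cls r U).set s ((cls r U).getD s 0 - 1)) := by
      intro i hi
      have : i / 2 = s := (Finset.mem_filter.mp hi).2
      rw [this]
    rw [Finset.sum_congr rfl h1, Finset.sum_const, cls_getD r U s hs']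
    have h2 : (U.filter (fun i => i < 2 * r)).filter (fun i => i / 2 = s)
        = U.filter (fun i => i / 2 = s) := by
      ext i
      simp only [Finset.mem_filter]
      constructor
      · rintro ⟨⟨h3, _⟩, h4⟩
        exact ⟨h3, h4⟩
      · rintro ⟨h3, h4⟩
        exact ⟨⟨h3, by omega⟩, h4⟩
    rw [h2]
    split_ifs <;> simp
  · intro i hi
    have := (Finset.mem_filter.mp hi).2
    simp only [Finset.mem_range]
    omega

theorem Rf_brd (r : ℕ) (cols : List (ℕ × List Bool)) : (∀ p ∈ cols, p.2.length = r) →
    ∀ (D : ℕ) (U : Finset ℕ) (x : ℚ),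
    (∀ i, 2 * r + D ≤ i → i < 2 * r + D + tot cols → i ∈ U) →
    Rf (brd r D cols) U x = VV cols (cls r U) (x + (avl r D U).card) := by
  induction cols with
  | nil =>
    intro _ D U x _
    simp [brd, VV, Rf]
  | cons p cols ih =>
    intro hp D U x hU
    obtain ⟨d, bs⟩ := p
    have hb : bs.length = r := hp (d, bs) List.mem_cons_self
    have hp' : ∀ p ∈ cols, p.2.length = r := fun q hq => hp q (List.mem_cons_of_mem _ hq)
    have ht : tot ((d, bs) :: cols) = d + tot cols := rfl
    rw [ht] at hU
    have hv : (avl r (D + d) U).card = (avl r D U).card + d :=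
      avl_card_add r D d U (fun i h1 h2 => hU i h1 (by omega))
    have hU' : ∀ i, 2 * r + (D + d) ≤ i → i < 2 * r + (D + d) + tot cols → i ∈ U :=
      fun i h1 h2 => hU i (by omega) (by omega)
    show Rf (colf r (D + d) bs :: brd r (D + d) cols) U x = _
    rw [Rf_cons, VV, ih hp' (D + d) U (x - 1) hU']
    -- split the sum
    have hsplit : ∑ i ∈ U, colf r (D + d) bs i * Rf (brd r (D + d) cols) (U.erase i) x
        = (∑ i ∈ U.filter (fun i => i < 2 * r), (if bs.getD (i / 2) false then (1 : ℚ) else 0)
            * VV cols ((cls r U).set (i / 2) ((cls r U).getD (i / 2) 0 - 1))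
              (x + (avl r (D + d) U).card))
          + ∑ i ∈ avl r (D + d) U, VV cols (cls r U) (x + ((avl r (D + d) U).card - 1)) := by
      have e1 := Finset.sum_filter_add_sum_filter_not U (fun i => i < 2 * r)
        (fun i => colf r (D + d) bs i * Rf (brd r (D + d) cols) (U.erase i) x)
      rw [← e1]
      congr 1
      · apply Finset.sum_congr rfl
        intro i hi
        obtain ⟨hiU, hi2⟩ := Finset.mem_filter.mp hi
        rw [ih hp' (D + d) (U.erase i) x (fun j h1 h2 => Finset.mem_erase.mpr
          ⟨by omega, hU' j h1 h2⟩), cls_erase r U i hiU, avl_erase_of_lt r (D + d) U i hi2]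
        simp only [colf, hi2, if_true]
      · have e2 : avl r (D + d) U ⊆ U.filter (fun i => ¬ i < 2 * r) := by
          intro i hi
          obtain ⟨h1, h2, h3⟩ := Finset.mem_filter.mp hi
          exact Finset.mem_filter.mpr ⟨h1, by omega⟩
        rw [← Finset.sum_subset e2]
        · apply Finset.sum_congr rfl
          intro i hi
          obtain ⟨h1, h2, h3⟩ := Finset.mem_filter.mp hi
          rw [ih hp' (D + d) (U.erase i) x (fun j h4 h5 => Finset.mem_erase.mpr
            ⟨by omega, hU' j h4 h5⟩), cls_erase_of_ge r U i h2, avl_erase_card r (D + d) U i hi]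
          have h4 : ¬ i < 2 * r := by omega
          simp only [colf, h4, h3, if_true, if_false, one_mul]
        · intro i hi hni
          obtain ⟨h1, h2⟩ := Finset.mem_filter.mp hi
          have h3 : ¬ i < 2 * r + (D + d) := by
            intro h3
            exact hni (Finset.mem_filter.mpr ⟨h1, by omega, h3⟩)
          simp only [colf, h2, h3, if_false, zero_mul]
    rw [hsplit, sum_class r U bs (fun a => VV cols a (x + (avl r (D + d) U).card)) hb,
      Finset.sum_const, nsmul_eq_mul, hv]
    push_cast
    have e3 : x + (((avl r D U).card : ℚ) + d - 1) = x + (avl r D U).card + d - 1 := by ring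
    have e4 : x - 1 + (((avl r D U).card : ℚ) + d) = x + (avl r D U).card + d - 1 := by ring
    have e5 : x + (((avl r D U).card : ℚ) + d) = x + (avl r D U).card + d := by ring
    rw [e3, e4, e5]
    ring

end Pool.Agent.H21.PM
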