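import Pool.Agent.H21.PM.Brd
import Pool.Agent.H48.PM.Lower
import Pool.Agent.H48.PM.Half

set_option autoImplicit false

/-!
Boards whose rows come in complementary pairs: the rook function is odd, and the value of the Euler
functional is computed from the tables.
-/

namespace Pool.Agent.H21.PM

open Finset Polynomial Pool.Agent.H48.PM

/-! ### Complements -/

theorem Rf_comp (cs : List (ℕ → ℚ)) : ∀ (U : Finset ℕ) (x : ℚ),
    Rf (cs.map (fun c => fun i => 1 - c i)) U x
      = (-1) ^ cs.length * Rf cs U (cs.length - U.card - 1 - x) := by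
  induction cs with
  | nil =>
    intro U x
    simp [Rf]
  | cons c cs ih =>
    intro U x
    have hsum := Rf_sum cs U ((cs.length : ℚ) - U.card - x)
    rw [List.map_cons, Rf_cons, ih U (x - 1), List.length_cons, Rf_cons]
    have h1 : ∀ i ∈ U, (1 - c i) * Rf (cs.map (fun c => fun i => 1 - c i)) (U.erase i) x
        = (-1) ^ cs.length * Rf cs (U.erase i) ((cs.length : ℚ) - U.card - x)
          - (-1) ^ cs.length * (c i * Rf cs (U.erase i) ((cs.length : ℚ) - U.card - x)) := by
      intro i hi
      rw [ih (U.erase i) x, card_erase_q hi]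
      have e : (cs.length : ℚ) - ((U.card : ℚ) - 1) - 1 - x = cs.length - U.card - x := by ring
      rw [e]
      ring
    rw [Finset.sum_congr rfl h1, Finset.sum_sub_distrib, ← Finset.mul_sum, ← Finset.mul_sum, hsum]
    have e1 : (cs.length : ℚ) - U.card - 1 - (x - 1) = cs.length - U.card - x := by ring
    have e2 : (((cs.length + 1 : ℕ) : ℚ)) - U.card - 1 - x = cs.length - U.card - x := by
      push_cast
      ring
    rw [e1, e2, pow_succ]
    ring

theorem Rf_congr2 (g h : (ℕ → ℚ) → (ℕ → ℚ)) (V : Finset ℕ) (cs : List (ℕ → ℚ)) :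
    (∀ c ∈ cs, ∀ i ∈ V, g c i = h c i) → ∀ (U : Finset ℕ) (x : ℚ), U ⊆ V →
    Rf (cs.map g) U x = Rf (cs.map h) U x := by
  induction cs with
  | nil =>
    intro _ U x _
    rfl
  | cons c cs ih =>
    intro hgh U x hUV
    have ih' := ih (fun d hd => hgh d (List.mem_cons_of_mem _ hd))
    rw [List.map_cons, List.map_cons, Rf_cons, Rf_cons, ih' U (x - 1) hUV]
    congr 1
    apply Finset.sum_congr rfl
    intro i hi
    rw [hgh c List.mem_cons_self i (hUV hi),
      ih' (U.erase i) x ((Finset.erase_subset _ _).trans hUV)]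

/-- Complement the odd rows. -/
def fl (c : ℕ → ℚ) : ℕ → ℚ := fun i => if i % 2 = 1 then 1 - c i else c i

/-- The partner row. -/
def prt (i : ℕ) : ℕ := if i % 2 = 1 then i - 1 else i + 1

theorem prt_prt (i : ℕ) : prt (prt i) = i := by
  unfold prt
  split_ifs <;> omega

def prtE : ℕ ↪ ℕ := ⟨prt, fun a b h => by rw [← prt_prt a, h, prt_prt]⟩

theorem map_prt (n : ℕ) (hn : Even n) : (range n).map prtE = range n := by
  ext i
  simp only [Finset.mem_map, Finset.mem_range]
  obtain ⟨k, hk⟩ := hn
  constructor
  · rintro ⟨j, hj, rfl⟩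
    show prt j < n
    unfold prt
    split_ifs <;> omega
  · intro hi
    refine ⟨prt i, ?_, prt_prt i⟩
    unfold prt
    split_ifs <;> omega

/-- Oddness. -/
theorem Rf_odd (n : ℕ) (hn : Odd n) (cs : List (ℕ → ℚ)) (hl : cs.length = n)
    (hc : ∀ c ∈ cs, ∀ i ∈ range (n - 1), c (prt i) = c i) (x : ℚ) :
    Rf (cs.map fl) (range (n - 1)) (-x) = -Rf (cs.map fl) (range (n - 1)) x := by
  obtain ⟨k, hk⟩ := hn
  have h1 := Rf_comp (cs.map fl) (range (n - 1)) x
  have h2 : Rf ((cs.map fl).map (fun c => fun i => 1 - c i)) (range (n - 1)) x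
      = Rf ((cs.map fl).map (fun c => fun i => c (prt i))) (range (n - 1)) x := by
    apply Rf_congr2 _ _ (range (n - 1)) _ _ _ _ (Finset.Subset.refl _)
    intro c hcm i hi
    obtain ⟨d, hd, rfl⟩ := List.mem_map.mp hcm
    have h3 := hc d hd i hi
    unfold fl
    by_cases hp : i % 2 = 1
    · have h4 : ¬ prt i % 2 = 1 := by
        unfold prt
        rw [if_pos hp]
        omega
      simp only [hp, h4, if_true, if_false, h3]
      ring
    · have h4 : prt i % 2 = 1 := by
        unfold prt
        rw [if_neg hp]
        omega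
      simp only [hp, h4, if_true, if_false, h3]
  have h5 : Rf ((cs.map fl).map (fun c => fun i => c (prt i))) (range (n - 1)) x
      = Rf (cs.map fl) (range (n - 1)) x := by
    have h6 := Rf_map prtE (fun c => fun i => c (prt i)) (fun c i => by
      show c (prt (prt i)) = c i
      rw [prt_prt]) (cs.map fl) (range (n - 1)) x
    rw [map_prt (n - 1) ⟨k, by omega⟩] at h6
    exact h6
  rw [h2, h5, List.length_map, hl, Finset.card_range] at h1
  have h7 : (n : ℚ) - ((n - 1 : ℕ) : ℚ) - 1 - x = -x := by
    rw [Nat.cast_sub (by omega)]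
    push_cast
    ring
  have hodd : (-1 : ℚ) ^ n = -1 := by
    rw [hk]
    exact Odd.neg_one_pow ⟨k, rfl⟩
  rw [h7, hodd] at h1
  linarith

/-- Flipping rows changes the permanent by a sign. -/
theorem Pf_fl (cs : List (ℕ → ℚ)) : ∀ U : Finset ℕ, U.card = cs.length →
    Pf (cs.map fl) U = (-1) ^ (U.filter (fun i => i % 2 = 1)).card * Pf cs U := by
  induction cs with
  | nil =>
    intro U hU
    have : U = ∅ := Finset.card_eq_zero.mp hU
    subst this
    simp [Pf]
  | cons c cs ih =>
    intro U hU
    rw [List.map_cons, Pf_cons, Pf_cons, Finset.mul_sum]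
    apply Finset.sum_congr rfl
    intro i hi
    have h1 : (U.erase i).card = cs.length := by
      rw [Finset.card_erase_of_mem hi, hU]
      simp
    rw [ih _ h1, Finset.filter_erase]
    by_cases hp : i % 2 = 1
    · have hm : i ∈ U.filter (fun i => i % 2 = 1) := Finset.mem_filter.mpr ⟨hi, hp⟩
      have h2 := Finset.card_erase_add_one hm
      rw [← h2, pow_succ]
      unfold fl
      rw [if_pos hp]
      ring
    · have hm : i ∉ U.filter (fun i => i % 2 = 1) := fun h => hp (Finset.mem_filter.mp h).2
      rw [Finset.erase_eq_of_notMem hm]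
      unfold fl
      rw [if_neg hp]
      ring

/-! ### Counting -/

theorem ff_desc (m : ℕ) : ∀ x : ℚ, ff m x = (descPochhammer ℚ m).eval x := by
  induction m with
  | zero =>
    intro x
    simp [ff]
  | succ m ih =>
    intro x
    rw [descPochhammer_succ_left]
    simp [ff, ih]

theorem Rf_count (cs : List (ℕ → ℚ)) : (∀ c ∈ cs, ∀ i, c i = 0 ∨ c i = 1) → ∀ U : Finset ℕ,
    ∃ a : ℕ → ℕ, ∀ x, Rf cs U x = ∑ m ∈ range (cs.length + 1), (a m : ℚ) * ff m x := by
  induction cs with
  | nil =>
    intro _ U
    exact ⟨fun _ => 1, fun x => by simp [Rf, ff]⟩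
  | cons c cs ih =>
    intro h U
    have ih' := ih (fun d hd => h d (List.mem_cons_of_mem _ hd))
    choose a ha using ih'
    have hc := h c List.mem_cons_self
    refine ⟨fun m => (∑ i ∈ U, if c i = 1 then (if m < cs.length + 1 then a (U.erase i) m else 0)
      else 0) + (if m = 0 then 0 else a U (m - 1)), ?_⟩
    intro x
    rw [Rf_cons, List.length_cons]
    have e1 : ∑ i ∈ U, c i * Rf cs (U.erase i) x
        = ∑ m ∈ range (cs.length + 1 + 1), ((∑ i ∈ U, if c i = 1 then
          (if m < cs.length + 1 then a (U.erase i) m else 0) else 0 : ℕ) : ℚ) * ff m x := by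
      have h1 : ∀ i ∈ U, c i * Rf cs (U.erase i) x
          = ∑ m ∈ range (cs.length + 1 + 1), ((if c i = 1 then
            (if m < cs.length + 1 then a (U.erase i) m else 0) else 0 : ℕ) : ℚ) * ff m x := by
        intro i _
        rcases hc i with h0 | h1
        · rw [h0]
          simp
        · rw [h1, one_mul, ha, Finset.sum_range_succ _ (cs.length + 1)]
          simp only [if_true, lt_self_iff_false, if_false, Nat.cast_zero, zero_mul, add_zero]
          apply Finset.sum_congr rfl
          intro m hm
          rw [if_pos (Finset.mem_range.mp hm)]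
      rw [Finset.sum_congr rfl h1, Finset.sum_comm]
      apply Finset.sum_congr rfl
      intro m _
      rw [Nat.cast_sum, Finset.sum_mul]
    have e2 : x * Rf cs U (x - 1) = ∑ m ∈ range (cs.length + 1 + 1),
        ((if m = 0 then 0 else a U (m - 1) : ℕ) : ℚ) * ff m x := by
      rw [Finset.sum_range_succ', ha, Finset.mul_sum]
      simp only [if_true, Nat.cast_zero, zero_mul, add_zero]
      apply Finset.sum_congr rfl
      intro m _
      rw [if_neg (by omega), Nat.add_sub_cancel]
      simp only [ff]
      ring
    rw [e1, e2, ← Finset.sum_add_distrib]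
    apply Finset.sum_congr rfl
    intro m _
    push_cast
    ring

theorem digits_lt (X B : ℕ) (a : ℕ → ℕ) : ∀ K : ℕ, B + K ≤ X → (∀ m < K, a m ≤ B) →
    ∑ m ∈ range K, a m * X.descFactorial m < X.descFactorial K := by
  intro K
  induction K with
  | zero =>
    intro _ _
    simp
  | succ K ih =>
    intro hX ha
    rw [Finset.sum_range_succ, Nat.descFactorial_succ]
    have h1 := ih (by omega) (fun m hm => ha m (by omega))
    have h2 : a K * X.descFactorial K ≤ B * X.descFactorial K :=
      Nat.mul_le_mul_right _ (ha K (by omega))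
    have h3 : (B + 1) * X.descFactorial K ≤ (X - K) * X.descFactorial K :=
      Nat.mul_le_mul_right _ (by omega)
    rw [add_mul, one_mul] at h3
    omega

theorem digits_unique (X B : ℕ) (a b : ℕ → ℕ) : ∀ K : ℕ, B + K ≤ X → (∀ m < K, a m ≤ B) →
    (∀ m < K, b m ≤ B) →
    ∑ m ∈ range K, a m * X.descFactorial m = ∑ m ∈ range K, b m * X.descFactorial m →
    ∀ m < K, a m = b m := by
  intro K
  induction K with
  | zero =>
    intro _ _ _ _ m hm
    omega
  | succ K ih =>
    intro hX ha hb h m hm
    rw [Finset.sum_range_succ, Finset.sum_range_succ] at h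
    have h1 := digits_lt X B a K (by omega) (fun m hm => ha m (by omega))
    have h2 := digits_lt X B b K (by omega) (fun m hm => hb m (by omega))
    have h3 : a K = b K := by
      rcases Nat.lt_trichotomy (a K) (b K) with h4 | h4 | h4
      · exfalso
        have h5 : (a K + 1) * X.descFactorial K ≤ b K * X.descFactorial K :=
          Nat.mul_le_mul_right _ h4
        rw [add_mul, one_mul] at h5
        omega
      · exact h4
      · exfalso
        have h5 : (b K + 1) * X.descFactorial K ≤ a K * X.descFactorial K :=
          Nat.mul_le_mul_right _ h4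
        rw [add_mul, one_mul] at h5
        omega
    rcases Nat.lt_succ_iff_lt_or_eq.mp hm with hm | rfl
    · rw [h3] at h
      exact ih (by omega) (fun m hm => ha m (by omega)) (fun m hm => hb m (by omega))
        (by omega) m hm
    · exact h3

/-- Horner evaluation in falling factorials. -/
def hor : List ℕ → ℕ → ℕ
  | [], _ => 0
  | b :: bs, X => b + X * hor bs (X - 1)

theorem hor_eq (l : List ℕ) : ∀ X : ℕ,
    hor l X = ∑ m ∈ range l.length, l.getD m 0 * X.descFactorial m := by
  induction l with
  | nil => intro X; simp [hor]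
  | cons b bs ih =>
    intro X
    rw [hor, ih, List.length_cons, Finset.sum_range_succ', Finset.mul_sum]
    rw [add_comm]
    congr 1
    · apply Finset.sum_congr rfl
      intro m _
      rcases Nat.eq_zero_or_pos X with rfl | hX
      · simp
      · obtain ⟨Y, rfl⟩ : ∃ Y, X = Y + 1 := ⟨X - 1, by omega⟩
        rw [Nat.succ_descFactorial_succ, Nat.add_sub_cancel]
        simp
        ring
    · simp

/-- Horner evaluation of the Euler functional. -/
def eul : List ℕ → ℕ → ℤ
  | [], _ => 0
  | b :: bs, m => (-2) ^ bs.length * (b : ℤ) + ((m : ℤ) + 1) * eul bs (m + 1)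

theorem eul_eq (l : List ℕ) : ∀ m : ℕ, l ≠ [] →
    ((eul l m : ℤ) : ℚ) * m.factorial
      = ∑ j ∈ range l.length, (l.getD j 0 : ℚ) * ((-2) ^ (l.length - 1 - j) * (m + j).factorial)
      := by
  induction l with
  | nil => intro m h; exact absurd rfl h
  | cons b bs ih =>
    intro m _
    rw [List.length_cons, Finset.sum_range_succ']
    by_cases hbs : bs = []
    · subst hbs
      simp [eul]
    · have h1 := ih (m + 1) hbs
      rw [eul]
      push_cast
      have e1 : (((-2) ^ bs.length * (b : ℚ) + ((m : ℚ) + 1) * (eul bs (m + 1) : ℚ)))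
            * (m.factorial : ℚ)
          = (-2) ^ bs.length * b * m.factorial
            + (eul bs (m + 1) : ℚ) * ((m + 1).factorial : ℚ) := by
        rw [Nat.factorial_succ]
        push_cast
        ring
      rw [e1, h1, add_comm]
      congr 1
      · apply Finset.sum_congr rfl
        intro j hj
        have hj' : j < bs.length := Finset.mem_range.mp hj
        have e2 : bs.length - (j + 1) = bs.length - 1 - j := by omega
        have e3 : m + 1 + j = m + (j + 1) := by ring
        rw [e2, e3]
        simp
      · simp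
        ring

end Pool.Agent.H21.PM
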