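import Pool.Agent.H21.PM.Qb

set_option autoImplicit false

/-!
Odd rook functions of order 3, 7, 15 and 31 with Euler functional of the least possible size.
The rows are in complementary pairs: staircase pairs and zero (one, two, six) general pairs.
-/

namespace Pool.Agent.H21.PM

open Finset Polynomial Pool.Agent.H48.PM

/-- The columns, from the last to the first. -/
def cols3 : List (ℕ × List Bool) := [
  (0, []),
  (0, []),
  (2, [])]

/-- The counts. -/
def b3 : List ℕ := [
  0,
  0,
  2,
  1]

theorem run3_a : lastT (runT 0 (2 * 1 + 1 + 2 * 0) cols3) =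
    18 := by decide +kernel

theorem run3_b : lastT (runT 0 (2 ^ 6 + 2 * 0) cols3) = hor b3 (2 ^ 6) := by decide +kernel

theorem eul3 : eul b3 0 = -2 := by decide +kernel

/-- Order 3, rook function odd, Euler functional `-1 / 2 ^ 2`. -/
theorem q_board3 : ∃ cs : List (ℕ → ℚ), cs.length = 3 ∧ (∀ c ∈ cs, ∀ i, c i = 0 ∨ c i = 1) ∧
    (∀ x, Rf cs (range 2) (-x) = -Rf cs (range 2) x) ∧
    EE (Rp cs (range 2)) = -1 / 2 ^ 2 := by
  obtain ⟨cs, h1, h2, h3, h4⟩ := q_board 0 1 cols3 b3 (2 ^ 6) (hor b3 (2 ^ 6))
    18 (by decide) (by decide) (by decide)
    run3_a run3_b (by decide) (by decide +kernel) (by norm_num) rfl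
  refine ⟨cs, h1, h2, h3, ?_⟩
  rw [eul3] at h4
  norm_num at h4 ⊢
  linarith

/-- The columns, from the last to the first. -/
def cols7 : List (ℕ × List Bool) := [
  (0, [false]),
  (0, [false]),
  (0, [true]),
  (2, [false]),
  (0, [true]),
  (0, [true]),
  (2, [false])]

/-- The counts. -/
def b7 : List ℕ := [
  0,
  0,
  16,
  108,
  160,
  82,
  16,
  1]

theorem run7_a : lastT (runT 1 (2 * 3 + 1 + 2 * 1) cols7) =
    450072 := by decide +kernel

theorem run7_b : lastT (runT 1 (2 ^ 20 + 2 * 1) cols7) = hor b7 (2 ^ 20) := by decide +kernel

theorem eul7 : eul b7 0 = -16 := by decide +kernel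

/-- Order 7, rook function odd, Euler functional `-1 / 2 ^ 3`. -/
theorem q_board7 : ∃ cs : List (ℕ → ℚ), cs.length = 7 ∧ (∀ c ∈ cs, ∀ i, c i = 0 ∨ c i = 1) ∧
    (∀ x, Rf cs (range 6) (-x) = -Rf cs (range 6) x) ∧
    EE (Rp cs (range 6)) = -1 / 2 ^ 3 := by
  obtain ⟨cs, h1, h2, h3, h4⟩ := q_board 1 3 cols7 b7 (2 ^ 20) (hor b7 (2 ^ 20))
    450072 (by decide) (by decide) (by decide)
    run7_a run7_b (by decide) (by decide +kernel) (by norm_num) rfl
  refine ⟨cs, h1, h2, h3, ?_⟩
  rw [eul7] at h4
  norm_num at h4 ⊢
  linarith

/-- The columns, from the last to the first. -/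
def cols15 : List (ℕ × List Bool) := [
  (0, [true, false]),
  (0, [true, false]),
  (0, [false, false]),
  (0, [true, true]),
  (0, [false, true]),
  (0, [false, false]),
  (2, [true, false]),
  (0, [true, false]),
  (2, [false, true]),
  (0, [true, false]),
  (2, [false, true]),
  (0, [false, false]),
  (2, [true, false]),
  (0, [true, false]),
  (2, [true, true])]

/-- The counts. -/
def b15 : List ℕ := [
  0,
  0,
  128,
  50752,
  1406464,
  9781632,
  26562592,
  34979152,
  25186080,
  10636016,
  2739696,
  437296,
  42936,
  2496,
  78,
  1]

theorem run15_a : lastT (runT 2 (2 * 7 + 1 + 2 * 2) cols15) =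
    91860747907420800 := by decide +kernel

theorem run15_b : lastT (runT 2 (2 ^ 58 + 2 * 2) cols15) = hor b15 (2 ^ 58) := by decide +kernel

theorem eul15 : eul b15 0 = -2048 := by decide +kernel

/-- Order 15, rook function odd, Euler functional `-1 / 2 ^ 4`. -/
theorem q_board15 : ∃ cs : List (ℕ → ℚ), cs.length = 15 ∧ (∀ c ∈ cs, ∀ i, c i = 0 ∨ c i = 1) ∧
    (∀ x, Rf cs (range 14) (-x) = -Rf cs (range 14) x) ∧
    EE (Rp cs (range 14)) = -1 / 2 ^ 4 := by
  obtain ⟨cs, h1, h2, h3, h4⟩ := q_board 2 7 cols15 b15 (2 ^ 58) (hor b15 (2 ^ 58))
    91860747907420800 (by decide) (by decide) (by decide)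
    run15_a run15_b (by decide) (by decide +kernel) (by norm_num) rfl
  refine ⟨cs, h1, h2, h3, ?_⟩
  rw [eul15] at h4
  norm_num at h4 ⊢
  linarith

/-- The columns, from the last to the first. -/
def cols31 : List (ℕ × List Bool) := [
  (0, [true, false, false, true, true, false]),
  (2, [true, true, true, true, true, false]),
  (0, [true, false, true, true, false, false]),
  (0, [true, true, false, true, false, true]),
  (0, [true, false, false, true, false, false]),
  (2, [true, true, true, false, false, true]),
  (0, [false, true, false, true, true, true]),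
  (0, [true, false, true, false, true, false]),
  (0, [true, true, false, false, false, true]),
  (2, [false, false, false, false, true, false]),
  (0, [false, false, true, false, true, true]),
  (2, [false, false, true, false, false, false]),
  (0, [true, false, false, true, false, true]),
  (0, [false, true, true, true, false, true]),
  (0, [false, true, true, true, true, false]),
  (0, [true, false, true, true, true, false]),
  (2, [false, true, true, false, true, false]),
  (0, [true, true, false, false, true, false]),
  (2, [false, true, false, true, false, false]),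
  (0, [false, false, false, false, false, true]),
  (0, [false, false, false, true, true, false]),
  (2, [true, true, false, false, false, false]),
  (0, [false, false, false, true, true, true]),
  (0, [true, false, false, true, false, true]),
  (0, [true, true, true, true, false, false]),
  (2, [false, true, false, false, true, false]),
  (0, [true, false, true, false, false, false]),
  (0, [true, false, true, false, true, false]),
  (2, [true, true, false, true, true, false]),
  (0, [true, true, true, true, false, true]),
  (0, [true, false, true, true, true, false])]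

/-- The counts. -/
def b31 : List ℕ := [
  0,
  1233239623547903082496,
  147331560727624909684736,
  4089453740859280773021696,
  44748628099773282050129920,
  246245877421760855172218880,
  784030789101024137743515648,
  1581334541339975598965972992,
  2151578327391186733064740864,
  2067479214350386939436894208,
  1452422702739921678200172544,
  766165941429956635022589952,
  309927270513426648746153984,
  97758969028081771454745600,
  24366686604580827474312192,
  4850341282820022735097344,
  777462291617494864919552,
  100982371532925543585664,
  10676140868555642942080,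
  921269750188240306816,
  64957277950177348352,
  3739655096839352352,
  175323761109135040,
  6660434676738240,
  203437323000192,
  4938755962896,
  93710013472,
  1355947968,
  14410576,
  105776,
  478,
  1]

theorem run31_a : lastT (runT 6 (2 * 15 + 1 + 2 * 6) cols31) =
    74527146020345579000424810587450078582995419136 := by decide +kernel

theorem run31_b : lastT (runT 6 (2 ^ 157 + 2 * 6) cols31) = hor b31 (2 ^ 157) := by decide +kernel

theorem eul31 : eul b31 0 = -67108864 := by decide +kernel

/-- Order 31, rook function odd, Euler functional `-1 / 2 ^ 5`. -/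
theorem q_board31 : ∃ cs : List (ℕ → ℚ), cs.length = 31 ∧ (∀ c ∈ cs, ∀ i, c i = 0 ∨ c i = 1) ∧
    (∀ x, Rf cs (range 30) (-x) = -Rf cs (range 30) x) ∧
    EE (Rp cs (range 30)) = -1 / 2 ^ 5 := by
  obtain ⟨cs, h1, h2, h3, h4⟩ := q_board 6 15 cols31 b31 (2 ^ 157) (hor b31 (2 ^ 157))
    74527146020345579000424810587450078582995419136 (by decide) (by decide) (by decide)
    run31_a run31_b (by decide) (by decide +kernel) (by norm_num) rfl
  refine ⟨cs, h1, h2, h3, ?_⟩
  rw [eul31] at h4
  norm_num at h4 ⊢
  linarith

end Pool.Agent.H21.PM
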