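import Pool.Agent.H21.PM.Fin

set_option autoImplicit false

/-!
The general certificate: a board with all rows in complementary pairs, from the values of two tables.
-/

namespace Pool.Agent.H21.PM

open Finset Polynomial Pool.Agent.H48.PM

theorem brd_length (r : ℕ) (cols : List (ℕ × List Bool)) : ∀ D, (brd r D cols).length
    = cols.length := by
  induction cols with
  | nil => intro D; rfl
  | cons p cols ih =>
    intro D
    obtain ⟨d, bs⟩ := p
    show (colf r (D + d) bs :: brd r (D + d) cols).length = _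
    rw [List.length_cons, ih, List.length_cons]

theorem colf_01 (r D : ℕ) (bs : List Bool) (i : ℕ) : colf r D bs i = 0 ∨ colf r D bs i = 1 := by
  unfold colf
  split_ifs <;> simp

theorem colf_prt (r D : ℕ) (hD : Even D) (bs : List Bool) (i : ℕ) :
    colf r D bs (prt i) = colf r D bs i := by
  obtain ⟨k, rfl⟩ := hD
  have h1 : prt i / 2 = i / 2 := by
    unfold prt
    split_ifs <;> omega
  have h2 : prt i < 2 * r ↔ i < 2 * r := by omega
  have h3 : prt i < 2 * r + (k + k) ↔ i < 2 * r + (k + k) := by omega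
  unfold colf
  rw [h1]
  simp only [h2, h3]

theorem brd_prop (r : ℕ) (P : (ℕ → ℚ) → Prop) (cols : List (ℕ × List Bool)) :
    ∀ D T : ℕ, Even D → (∀ p ∈ cols, Even p.1) → D + tot cols ≤ T →
    (∀ (D' : ℕ) (bs : List Bool), Even D' → D' ≤ T → P (colf r D' bs)) →
    ∀ c ∈ brd r D cols, P c := by
  induction cols with
  | nil =>
    intro D T _ _ _ _ c hc
    simp [brd] at hc
  | cons p cols ih =>
    intro D T hD hp hT hP c hc
    obtain ⟨d, bs⟩ := p
    have ht : tot ((d, bs) :: cols) = d + tot cols := rfl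
    rw [ht] at hT
    have hd : Even (D + d) := hD.add (hp (d, bs) List.mem_cons_self)
    rcases List.mem_cons.mp (show c ∈ colf r (D + d) bs :: brd r (D + d) cols from hc) with h | h
    · rw [h]
      exact hP _ _ hd (by omega)
    · exact ih (D + d) T hd (fun q hq => hp q (List.mem_cons_of_mem _ hq)) (by omega) hP c h

theorem Rp_insert (n : ℕ) (cs : List (ℕ → ℚ)) (h : ∀ c ∈ cs, c n = 0) :
    Rp cs (range (n + 1)) = Rp cs (range n) := by
  apply Polynomial.funext
  intro x
  rw [eval_Rp, eval_Rp, Finset.range_add_one, Rf_insert_zero n cs h _ x (by simp)]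

/-- The value of the Euler functional from the counts. -/
theorem EE_counts (n : ℕ) (cs : List (ℕ → ℚ)) (U : Finset ℕ) (b : List ℕ)
    (hb : b.length = n + 1)
    (h : ∀ x, Rf cs U x = ∑ m ∈ range (n + 1), (b.getD m 0 : ℚ) * ff m x) :
    (-2) ^ n * EE (Rp cs U) = eul b 0 := by
  have h1 : Rp cs U = ∑ m ∈ range (n + 1), (b.getD m 0 : ℚ) • descPochhammer ℚ m := by
    apply Polynomial.funext
    intro x
    rw [eval_Rp, h, eval_finsetSum]
    apply Finset.sum_congr rfl
    intro m _
    rw [ff_desc, eval_smul, smul_eq_mul]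
  have h2 := eul_eq b 0 (by
    intro h0
    rw [h0] at hb
    simp at hb)
  rw [Nat.factorial_zero, Nat.cast_one, mul_one] at h2
  rw [h2, h1, map_sum, hb, Finset.mul_sum]
  apply Finset.sum_congr rfl
  intro m hm
  have hm' : m < n + 1 := Finset.mem_range.mp hm
  rw [map_smul, smul_eq_mul, Nat.zero_add, ← EE_desc m]
  have h3 : (-2 : ℚ) ^ n = (-2) ^ (n + 1 - 1 - m) * (-2) ^ m := by
    rw [← pow_add]
    congr 1
    omega
  rw [h3]
  ring

theorem card_odd (k : ℕ) : ((range (2 * k + 1)).filter (fun i => i % 2 = 1)).card = k := by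
  induction k with
  | zero => decide
  | succ k ih =>
    rw [show 2 * (k + 1) + 1 = (2 * k + 1) + 1 + 1 by ring, Finset.range_add_one,
      Finset.range_add_one, Finset.filter_insert, Finset.filter_insert, if_neg (by omega),
      if_pos (by omega), Finset.card_insert_of_notMem (by simp), ih]

/-- The certificate. -/
theorem q_board (r k : ℕ) (cols : List (ℕ × List Bool)) (b : List ℕ) (X N0 N1 : ℕ)
    (hlen : cols.length = 2 * k + 1) (htot : 2 * r + tot cols = 2 * k)
    (hcols : ∀ p ∈ cols, Even p.1 ∧ p.2.length = r)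
    (h1 : lastT (runT r (2 * k + 1 + 2 * r) cols) = N1)
    (h0 : lastT (runT r (X + 2 * r) cols) = N0)
    (hb : b.length = 2 * k + 2) (hbN : ∀ a ∈ b, a ≤ N1) (hX : N1 + (2 * k + 2) ≤ X)
    (hb0 : hor b X = N0) :
    ∃ cs : List (ℕ → ℚ), cs.length = 2 * k + 1 ∧ (∀ c ∈ cs, ∀ i, c i = 0 ∨ c i = 1) ∧
      (∀ x, Rf cs (range (2 * k)) (-x) = -Rf cs (range (2 * k)) x) ∧
      (-2) ^ (2 * k + 1) * EE (Rp cs (range (2 * k))) = (-1) ^ k * eul b 0 := by
  have hE : ∀ p ∈ cols, Even p.1 := fun p hp => (hcols p hp).1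
  have hr : ∀ p ∈ cols, p.2.length = r := fun p hp => (hcols p hp).2
  set B := brd r 0 cols with hB
  have hBl : B.length = 2 * k + 1 := by rw [hB, brd_length, hlen]
  have hB01 : ∀ c ∈ B, ∀ i, c i = 0 ∨ c i = 1 :=
    brd_prop r (fun c => ∀ i, c i = 0 ∨ c i = 1) cols 0 (tot cols) Even.zero hE (by omega)
      (fun D' bs _ _ i => colf_01 r D' bs i)
  have hBp : ∀ c ∈ B, ∀ i, c (prt i) = c i :=
    brd_prop r (fun c => ∀ i, c (prt i) = c i) cols 0 (tot cols) Even.zero hE (by omega)
      (fun D' bs hD _ i => colf_prt r D' hD bs i)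
  have hBz : ∀ c ∈ B, c (2 * k) = 0 :=
    brd_prop r (fun c => c (2 * k) = 0) cols 0 (tot cols) Even.zero hE (by omega)
      (fun D' bs _ hT => by
        unfold colf
        rw [if_neg (by omega), if_neg (by omega)])
  -- the rook function of the doubled board
  have hcls : cls r (range (2 * k)) = List.replicate r 2 := by
    rw [List.eq_replicate_iff]
    refine ⟨cls_length r _, ?_⟩
    intro a ha
    obtain ⟨s, hs, rfl⟩ := List.mem_map.mp ha
    have hs' : s < r := List.mem_range.mp hs
    have h : (range (2 * k)).filter (fun i => i / 2 = s) = {2 * s, 2 * s + 1} := by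
      ext i
      simp only [Finset.mem_filter, Finset.mem_range, Finset.mem_insert, Finset.mem_singleton]
      omega
    rw [h]
    exact Finset.card_pair (by omega)
  have hR : ∀ x, Rf B (range (2 * k)) x = VV cols (List.replicate r 2) x := by
    intro x
    have h := Rf_brd r cols hr 0 (range (2 * k)) x (fun i _ h2 => by
      rw [Finset.mem_range]; omega)
    rw [hB, h, hcls]
    have e : avl r 0 (range (2 * k)) = ∅ := by
      ext i
      simp only [avl, Finset.mem_filter, Finset.mem_range, Finset.notMem_empty, iff_false]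
      omega
    rw [e]
    simp
  -- the counts
  obtain ⟨a, ha⟩ := Rf_count B hB01 (range (2 * k))
  rw [hBl] at ha
  have hffX : ∀ (m Y : ℕ), ff m (Y : ℚ) = (Y.descFactorial m : ℚ) := by
    intro m Y
    rw [ff_desc, descPochhammer_eval_eq_descFactorial]
  have hN : ∀ Y N : ℕ, 2 * k + 1 ≤ Y → lastT (runT r (Y + 2 * r) cols) = N →
      ∑ m ∈ range (2 * k + 1 + 1), a m * Y.descFactorial m = N := by
    intro Y N hY h
    have h2 := VV_run r Y N cols hr (by rw [hlen]; exact hY) h
    rw [← hR, ha] at h2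
    have h3 : ∑ m ∈ range (2 * k + 1 + 1), (a m : ℚ) * ff m (Y : ℚ)
        = ((∑ m ∈ range (2 * k + 1 + 1), a m * Y.descFactorial m : ℕ) : ℚ) := by
      push_cast
      apply Finset.sum_congr rfl
      intro m _
      rw [hffX]
    rw [h3] at h2
    exact_mod_cast h2
  have hA1 := hN (2 * k + 1) N1 (le_refl _) h1
  have hA0 := hN X N0 (by omega) h0
  have haN : ∀ m < 2 * k + 1 + 1, a m ≤ N1 := by
    intro m hm
    rw [← hA1]
    have h2 : a m * 1 ≤ a m * (2 * k + 1).descFactorial m :=
      Nat.mul_le_mul_left _ (Nat.descFactorial_pos.mpr (by omega))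
    have h3 : a m * (2 * k + 1).descFactorial m
        ≤ ∑ j ∈ range (2 * k + 1 + 1), a j * (2 * k + 1).descFactorial j :=
      Finset.single_le_sum (f := fun j => a j * (2 * k + 1).descFactorial j)
        (fun _ _ => Nat.zero_le _) (Finset.mem_range.mpr hm)
    omega
  have hbm : ∀ m < 2 * k + 1 + 1, b.getD m 0 ≤ N1 := by
    intro m hm
    rw [List.getD_eq_getElem _ _ (by omega)]
    exact hbN _ (List.getElem_mem _)
  have hab : ∀ m < 2 * k + 1 + 1, a m = b.getD m 0 := by
    apply digits_unique X N1 a (fun m => b.getD m 0) (2 * k + 1 + 1) (by omega) haN hbm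
    rw [hA0, ← hb0, hor_eq, hb]
  have hcount : ∀ x, Rf B (range (2 * k)) x
      = ∑ m ∈ range (2 * k + 1 + 1), (b.getD m 0 : ℚ) * ff m x := by
    intro x
    rw [ha]
    apply Finset.sum_congr rfl
    intro m hm
    rw [hab m (Finset.mem_range.mp hm)]
  have hEB := EE_counts (2 * k + 1) B (range (2 * k)) b hb hcount
  -- flip
  refine ⟨B.map fl, by rw [List.length_map, hBl], ?_, ?_, ?_⟩
  · intro c hc i
    obtain ⟨d, hd, rfl⟩ := List.mem_map.mp hc
    unfold fl
    rcases hB01 d hd i with h | h <;> rw [h] <;> split_ifs <;> simp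
  · intro x
    have h := Rf_odd (2 * k + 1) ⟨k, rfl⟩ B hBl (fun c hc i _ => hBp c hc i) x
    rwa [Nat.add_sub_cancel] at h
  · have hz : ∀ c ∈ B.map fl, c (2 * k) = 0 := by
      intro c hc
      obtain ⟨d, hd, rfl⟩ := List.mem_map.mp hc
      unfold fl
      rw [if_neg (by omega), hBz d hd]
    have h2 := Pf_fl B (range (2 * k + 1)) (by rw [Finset.card_range, hBl])
    rw [Pf_eq EE isE_EE (B.map fl) _ (by rw [Finset.card_range, List.length_map, hBl]),
      Pf_eq EE isE_EE B _ (by rw [Finset.card_range, hBl]), List.length_map, hBl,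
      Rp_insert (2 * k) _ hz, Rp_insert (2 * k) _ hBz, card_odd, hEB] at h2
    exact h2

end Pool.Agent.H21.PM
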