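import Pool.Agent.H21.PM.Tree
import Pool.Agent.H48.PM.Perm
import Pool.Agent.H48.PM.Seed

set_option autoImplicit false

/-!
The rook function of a board with doubled rows and doubled staircase rows, evaluated by the tables.
-/

namespace Pool.Agent.H21.PM

open Finset Pool.Agent.H48.PM

/-- The sum over the letters which may be lowered. -/
def pickS : List Bool → List ℕ → (List ℕ → ℚ) → ℚ
  | b :: bs, a :: as, f => (if b then (a : ℚ) * f ((a - 1) :: as) else 0)
      + pickS bs as (fun t => f (a :: t))
  | _, _, _ => 0

/-- The collapsed recursion. -/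
def VV : List (ℕ × List Bool) → List ℕ → ℚ → ℚ
  | [], _, _ => 1
  | (d, bs) :: cols, a, y => pickS bs a (fun a' => VV cols a' (y + d))
      + (y + d) * VV cols a (y + d - 1)

/-- Entry of a table. -/
def get : Tr → List ℕ → ℕ
  | Tr.nd a b c, i :: is => if i = 0 then get a is else if i = 1 then get b is else get c is
  | Tr.lf n, _ => n
  | _, _ => 0

/-- All leaves at depth `r`. -/
def WF : ℕ → Tr → Prop
  | 0, Tr.lf _ => True
  | r + 1, Tr.nd a b c => WF r a ∧ WF r b ∧ WF r c
  | _, _ => False

theorem wf_ones (r : ℕ) : WF r (ones r) := by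
  induction r with
  | zero => trivial
  | succ r ih => exact ⟨ih, ih, ih⟩

theorem get_ones (r : ℕ) : ∀ a : List ℕ, a.length = r → get (ones r) a = 1 := by
  induction r with
  | zero =>
    intro a _
    simp [ones, get]
  | succ r ih =>
    intro a ha
    match a, ha with
    | i :: is, ha =>
      have h : is.length = r := by simpa using ha
      simp [ones, get, ih is h]

theorem wf_add (k : ℕ) : ∀ (r : ℕ) (s t : Tr), WF r s → WF r t → WF r (addT k s t) := by
  intro r
  induction r with
  | zero =>
    intro s t hs ht
    match s, t, hs, ht with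
    | Tr.lf _, Tr.lf _, _, _ => trivial
  | succ r ih =>
    intro s t hs ht
    match s, t, hs, ht with
    | Tr.nd _ _ _, Tr.nd _ _ _, hs, ht =>
      exact ⟨ih _ _ hs.1 ht.1, ih _ _ hs.2.1 ht.2.1, ih _ _ hs.2.2 ht.2.2⟩

theorem get_add (k : ℕ) : ∀ (r : ℕ) (s t : Tr) (a : List ℕ), WF r s → WF r t → a.length = r →
    get (addT k s t) a = get s a + k * get t a := by
  intro r
  induction r with
  | zero =>
    intro s t a hs ht _
    match s, t, hs, ht with
    | Tr.lf _, Tr.lf _, _, _ => simp [addT, get]
  | succ r ih =>
    intro s t a hs ht ha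
    match s, t, a, hs, ht, ha with
    | Tr.nd _ _ _, Tr.nd _ _ _, i :: is, hs, ht, ha =>
      have h : is.length = r := by simpa using ha
      simp only [addT, get]
      split_ifs
      · exact ih _ _ _ hs.1 ht.1 h
      · exact ih _ _ _ hs.2.1 ht.2.1 h
      · exact ih _ _ _ hs.2.2 ht.2.2 h

theorem wf_step : ∀ (r κ : ℕ) (bs : List Bool) (t : Tr), WF r t → WF r (stepT κ bs t) := by
  intro r
  induction r with
  | zero =>
    intro κ bs t ht
    match t, ht with
    | Tr.lf _, _ => simp [stepT, WF]
  | succ r ih =>
    intro κ bs t ht
    match t, ht with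
    | Tr.nd a b c, ht =>
      obtain ⟨ha, hb, hc⟩ := ht
      match bs with
      | [] => exact ⟨ih _ _ _ ha, ih _ _ _ hb, ih _ _ _ hc⟩
      | false :: bs => exact ⟨ih _ _ _ ha, ih _ _ _ hb, ih _ _ _ hc⟩
      | true :: bs =>
        exact ⟨ih _ _ _ ha, wf_add _ _ _ _ (ih _ _ _ hb) ha, wf_add _ _ _ _ (ih _ _ _ hc) hb⟩

theorem wf_run (r : ℕ) (cols : List (ℕ × List Bool)) : ∀ K : ℕ, WF r (runT r K cols) := by
  induction cols with
  | nil => intro K; exact wf_ones r
  | cons p cols ih =>
    intro K
    obtain ⟨d, bs⟩ := p
    exact wf_step _ _ _ _ (ih _)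

theorem get_step : ∀ (r κ : ℕ) (bs : List Bool) (t : Tr) (a : List ℕ), WF r t →
    bs.length = r → a.length = r → (∀ i ∈ a, i ≤ 2) → a.sum ≤ κ →
    (get (stepT κ bs t) a : ℚ)
      = pickS bs a (fun a' => (get t a' : ℚ)) + ((κ : ℚ) - a.sum) * get t a := by
  intro r
  induction r with
  | zero =>
    intro κ bs t a ht hb ha _ _
    match t, ht, bs, hb, a, ha with
    | Tr.lf n, _, [], _, [], _ => simp [stepT, get, pickS]
  | succ r ih =>
    intro κ bs t a ht hb ha h2 hs
    match t, ht, bs, hb, a, ha with
    | Tr.nd x y z, ht, b :: bs, hb, i :: is, ha =>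
      obtain ⟨hx, hy, hz⟩ := ht
      have hb' : bs.length = r := by simpa using hb
      have ha' : is.length = r := by simpa using ha
      have h2' : ∀ j ∈ is, j ≤ 2 := fun j hj => h2 j (List.mem_cons_of_mem _ hj)
      have hi : i ≤ 2 := h2 i List.mem_cons_self
      rw [List.sum_cons] at hs
      have key0 := fun (w : Tr) (hw : WF r w) (κ' : ℕ) (hk : is.sum ≤ κ') =>
        ih κ' bs w is hw hb' ha' h2' hk
      rcases (by omega : i = 0 ∨ i = 1 ∨ i = 2) with rfl | rfl | rfl
      · have h := key0 x hx κ (by omega)
        cases b
        · simp only [stepT, get, pickS, List.sum_cons]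
          simp [h]
        · simp only [stepT, get, pickS, List.sum_cons]
          simp [h]
      · have h := key0 y hy (κ - 1) (by omega)
        have hc : ((κ - 1 : ℕ) : ℚ) = κ - 1 := by
          rw [Nat.cast_sub (by omega)]; simp
        rw [hc] at h
        cases b
        · simp only [stepT, get, pickS, List.sum_cons]
          simp only [if_true, if_false, one_ne_zero, Bool.false_eq_true]
          rw [h]
          push_cast
          ring
        · simp only [stepT, get, pickS, List.sum_cons]
          simp only [if_true, if_false, one_ne_zero,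
            get_add 1 r _ x is (wf_step r _ _ _ hy) hx ha']
          simp [h]
          ring
      · have h := key0 z hz (κ - 2) (by omega)
        have hc : ((κ - 2 : ℕ) : ℚ) = κ - 2 := by
          rw [Nat.cast_sub (by omega)]; simp
        rw [hc] at h
        cases b
        · simp only [stepT, get, pickS, List.sum_cons]
          simp only [Bool.false_eq_true, if_false, OfNat.ofNat_ne_zero, OfNat.ofNat_ne_one]
          rw [h]
          push_cast
          ring
        · simp only [stepT, get, pickS, List.sum_cons]
          simp only [reduceIte, get_add 2 r _ y is (wf_step r _ _ _ hz) hy ha']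
          simp [h]
          ring

theorem get_run (r : ℕ) (cols : List (ℕ × List Bool)) : (∀ p ∈ cols, p.2.length = r) →
    ∀ (K : ℕ) (a : List ℕ), a.length = r → (∀ i ∈ a, i ≤ 2) → cols.length + a.sum ≤ K →
    (get (runT r K cols) a : ℚ) = VV cols a ((K : ℚ) - a.sum) := by
  induction cols with
  | nil =>
    intro _ K a ha _ _
    simp [runT, VV, get_ones r a ha]
  | cons p cols ih =>
    intro hp K a ha h2 hK
    obtain ⟨d, bs⟩ := p
    rw [List.length_cons] at hK
    have hb : bs.length = r := hp (d, bs) List.mem_cons_self
    have hp' : ∀ p ∈ cols, p.2.length = r := fun q hq => hp q (List.mem_cons_of_mem _ hq)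
    have hc : ((K + d - 1 : ℕ) : ℚ) = K + d - 1 := by
      rw [Nat.cast_sub (by omega)]; push_cast; ring
    rw [runT, get_step r (K + d) bs _ a (wf_run r cols _) hb ha h2 (by omega)]
    rw [VV, ih hp' (K + d - 1) a ha h2 (by omega)]
    have hpick : ∀ (bs : List Bool) (a : List ℕ) (f g : List ℕ → ℚ),
        (∀ a' : List ℕ, a'.length = a.length → (∀ i ∈ a, i ≤ 2) → (∀ i ∈ a', i ≤ 2) →
          a'.sum + 1 = a.sum → f a' = g a') → (∀ i ∈ a, i ≤ 2) → pickS bs a f = pickS bs a g := by
      intro bs
      induction bs with
      | nil => intro a f g _ _; simp [pickS]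
      | cons b bs ihb =>
        intro a f g hfg h2
        match a with
        | [] => simp [pickS]
        | i :: is =>
          simp only [pickS]
          congr 1
          · rcases Nat.eq_zero_or_pos i with rfl | hi
            · simp
            · split_ifs
              · rw [hfg ((i - 1) :: is) (by simp) h2 (by
                  intro j hj
                  rcases List.mem_cons.mp hj with rfl | hj
                  · have := h2 i List.mem_cons_self
                    omega
                  · exact h2 j (List.mem_cons_of_mem _ hj)) (by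
                  simp only [List.sum_cons]; omega)]
              · rfl
          · apply ihb
            · intro a' hl _ h2' hs
              exact hfg (i :: a') (by simp [hl]) h2 (by
                intro j hj
                rcases List.mem_cons.mp hj with rfl | hj
                · exact h2 _ List.mem_cons_self
                · exact h2' j hj) (by simp only [List.sum_cons]; omega)
            · exact fun j hj => h2 j (List.mem_cons_of_mem _ hj)
    have h3 : pickS bs a (fun a' => (get (runT r (K + d - 1) cols) a' : ℚ))
        = pickS bs a (fun a' => VV cols a' ((K : ℚ) - a.sum + d)) := by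
      apply hpick _ _ _ _ _ h2
      intro a' hl _ h2' hs
      rw [ih hp' (K + d - 1) a' (by rw [hl, ha]) h2' (by omega), hc]
      congr 1
      have : (a.sum : ℚ) = a'.sum + 1 := by exact_mod_cast hs.symm
      rw [this]
      ring
    rw [h3, hc, Nat.cast_add]
    have e : (K : ℚ) + d - 1 - a.sum = K - a.sum + d - 1 := by ring
    rw [e]
    ring

theorem get_last : ∀ (r : ℕ) (t : Tr), WF r t → get t (List.replicate r 2) = lastT t := by
  intro r
  induction r with
  | zero =>
    intro t ht
    match t, ht with
    | Tr.lf _, _ => simp [get, lastT]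
  | succ r ih =>
    intro t ht
    match t, ht with
    | Tr.nd _ _ c, ht =>
      rw [List.replicate_succ]
      simp only [get, lastT]
      simp [ih c ht.2.2]

/-- The value of the collapsed recursion at a natural number. -/
theorem VV_run (r X N : ℕ) (cols : List (ℕ × List Bool)) (hp : ∀ p ∈ cols, p.2.length = r)
    (hX : cols.length ≤ X) (h : lastT (runT r (X + 2 * r) cols) = N) :
    VV cols (List.replicate r 2) X = N := by
  have hs : (List.replicate r 2).sum = 2 * r := by simp [mul_comm]
  have h1 := get_run r cols hp (X + 2 * r) (List.replicate r 2) (by simp) (by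
    intro i hi
    rw [List.eq_of_mem_replicate hi]) (by rw [hs]; omega)
  rw [get_last r _ (wf_run r cols _), h, hs] at h1
  rw [h1]
  congr 1
  push_cast
  ring

end Pool.Agent.H21.PM
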