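import Mathlib

set_option autoImplicit false

/-!
Tables indexed by the words of length `r` in the letters `0, 1, 2`, as ternary trees, and one step of
the dynamic programming for boards with doubled rows.
-/

namespace Pool.Agent.H21.PM

/-- Ternary trees with natural numbers at the leaves. -/
inductive Tr : Type
  | lf (n : ℕ) : Tr
  | nd (a b c : Tr) : Tr

/-- The tree of depth `r` with all leaves `1`. -/
def ones : ℕ → Tr
  | 0 => Tr.lf 1
  | r + 1 => Tr.nd (ones r) (ones r) (ones r)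

/-- `s + k t` leafwise. -/
def addT (k : ℕ) : Tr → Tr → Tr
  | Tr.lf m, Tr.lf n => Tr.lf (m + k * n)
  | Tr.nd a b c, Tr.nd a' b' c' => Tr.nd (addT k a a') (addT k b b') (addT k c c')
  | s, _ => s

/-- One column. -/
def stepT : ℕ → List Bool → Tr → Tr
  | κ, _, Tr.lf n => Tr.lf (κ * n)
  | κ, [], Tr.nd a b c => Tr.nd (stepT κ [] a) (stepT (κ - 1) [] b) (stepT (κ - 2) [] c)
  | κ, false :: bs, Tr.nd a b c =>
      Tr.nd (stepT κ bs a) (stepT (κ - 1) bs b) (stepT (κ - 2) bs c)
  | κ, true :: bs, Tr.nd a b c =>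
      Tr.nd (stepT κ bs a) (addT 1 (stepT (κ - 1) bs b) a) (addT 2 (stepT (κ - 2) bs c) b)

/-- All columns. -/
def runT (r : ℕ) : ℕ → List (ℕ × List Bool) → Tr
  | _, [] => ones r
  | K, (d, bs) :: cols => stepT (K + d) bs (runT r (K + d - 1) cols)

/-- The last leaf. -/
def lastT : Tr → ℕ
  | Tr.lf n => n
  | Tr.nd _ _ c => lastT c

end Pool.Agent.H21.PM
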